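import Pool.Agent.Helper68.LM2.St

set_option autoImplicit false

open MeasureTheory Set Filter Topology
open scoped ENNReal

namespace Pool.Agent.Helper42.LM2

open Pool.Agent.Helper68.LM2 Pool.Agent.Helper68.LM

theorem wsPow (b : ℝ) (r : ℕ) : (2 : ℝ) ^ (-(r * b)) = ((2 : ℝ) ^ (-b)) ^ r := by
  rw [← Real.rpow_natCast, ← Real.rpow_mul (by norm_num)]
  congr 1
  ring

theorem wsPow2 (b : ℝ) (r : ℕ) : (2 : ℝ) ^ (r * b) = ((2 : ℝ) ^ b) ^ r := by
  rw [← Real.rpow_natCast, ← Real.rpow_mul (by norm_num)]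
  congr 1
  ring

theorem wsPow3 (b : ℝ) (r : ℕ) : ((2 : ℝ) ^ (-b)) ^ r = ((2⁻¹ : ℝ) ^ r) ^ b := by
  rw [← Real.rpow_natCast, ← Real.rpow_natCast, ← Real.rpow_mul (by norm_num),
    ← Real.rpow_mul (by norm_num), Real.inv_rpow (by norm_num), ← Real.rpow_neg (by norm_num)]
  congr 1
  ring

/-- geometric sum above the level -/
theorem wsG1 (b t : ℝ) (hb : 0 < b) (ht : 0 < t) (R : ℕ) :
    ∑ r ∈ Finset.range R, (if (2⁻¹ : ℝ) ^ r < t then (2 : ℝ) ^ (-(r * b)) else 0) ≤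
      t ^ b * (1 - (2 : ℝ) ^ (-b))⁻¹ := by
  classical
  have hx0 : 0 < (2 : ℝ) ^ (-b) := Real.rpow_pos_of_pos (by norm_num) _
  have hx1 : (2 : ℝ) ^ (-b) < 1 :=
    Real.rpow_lt_one_of_one_lt_of_neg (by norm_num) (by linarith)
  have hex : ∃ r : ℕ, (2⁻¹ : ℝ) ^ r < t := exists_pow_lt_of_lt_one ht (by norm_num)
  set r0 := Nat.find hex with hr0
  have h0 : (2⁻¹ : ℝ) ^ r0 < t := Nat.find_spec hex
  calc ∑ r ∈ Finset.range R, (if (2⁻¹ : ℝ) ^ r < t then (2 : ℝ) ^ (-(r * b)) else 0)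
      = ∑ r ∈ (Finset.range R).filter (fun r => (2⁻¹ : ℝ) ^ r < t), ((2 : ℝ) ^ (-b)) ^ r := by
        rw [Finset.sum_filter]
        apply Finset.sum_congr rfl
        intro r _
        split_ifs
        · exact wsPow b r
        · rfl
    _ ≤ ∑ r ∈ Finset.Ico r0 R, ((2 : ℝ) ^ (-b)) ^ r := by
        apply Finset.sum_le_sum_of_subset_of_nonneg
        · intro r hr
          rw [Finset.mem_filter, Finset.mem_range] at hr
          rw [Finset.mem_Ico]
          exact ⟨Nat.find_min' hex hr.2, hr.1⟩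
        · intro r _ _
          positivity
    _ ≤ ((2 : ℝ) ^ (-b)) ^ r0 / (1 - (2 : ℝ) ^ (-b)) := geom_sum_Ico_le_of_lt_one hx0.le hx1
    _ ≤ t ^ b * (1 - (2 : ℝ) ^ (-b))⁻¹ := by
        rw [div_eq_mul_inv]
        apply mul_le_mul_of_nonneg_right _ (inv_nonneg.2 (by linarith))
        rw [wsPow3]
        exact Real.rpow_le_rpow (by positivity) h0.le hb.le

/-- geometric sum below the level -/
theorem wsG2 (b t : ℝ) (hb : 0 < b) (ht : 0 < t) (R : ℕ) :
    ∑ r ∈ Finset.range R, (if t ≤ (2⁻¹ : ℝ) ^ r then (2 : ℝ) ^ (r * b) else 0) ≤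
      t ^ (-b) * ((2 : ℝ) ^ b * ((2 : ℝ) ^ b - 1)⁻¹) := by
  classical
  have hy1 : 1 < (2 : ℝ) ^ b := Real.one_lt_rpow (by norm_num) hb
  have hy0 : 0 < (2 : ℝ) ^ b := by linarith
  have hinv : 0 < ((2 : ℝ) ^ b - 1)⁻¹ := inv_pos.2 (by linarith)
  have htb : 0 < t ^ (-b) := Real.rpow_pos_of_pos ht _
  have e1 : ∑ r ∈ Finset.range R, (if t ≤ (2⁻¹ : ℝ) ^ r then (2 : ℝ) ^ (r * b) else 0) =
      ∑ r ∈ (Finset.range R).filter (fun r => t ≤ (2⁻¹ : ℝ) ^ r), ((2 : ℝ) ^ b) ^ r := by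
    rw [Finset.sum_filter]
    apply Finset.sum_congr rfl
    intro r _
    split_ifs
    · exact wsPow2 b r
    · rfl
  rw [e1]
  rcases ((Finset.range R).filter (fun r => t ≤ (2⁻¹ : ℝ) ^ r)).eq_empty_or_nonempty with h | h
  · rw [h, Finset.sum_empty]
    positivity
  · set r1 := ((Finset.range R).filter (fun r => t ≤ (2⁻¹ : ℝ) ^ r)).max' h with hr1
    have hmem : t ≤ (2⁻¹ : ℝ) ^ r1 := (Finset.mem_filter.1 (Finset.max'_mem _ h)).2
    calc ∑ r ∈ (Finset.range R).filter (fun r => t ≤ (2⁻¹ : ℝ) ^ r), ((2 : ℝ) ^ b) ^ r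
        ≤ ∑ r ∈ Finset.range (r1 + 1), ((2 : ℝ) ^ b) ^ r := by
          apply Finset.sum_le_sum_of_subset_of_nonneg
          · intro r hr
            rw [Finset.mem_range]
            have := Finset.le_max' _ r hr
            omega
          · intro r _ _
            positivity
      _ = (((2 : ℝ) ^ b) ^ (r1 + 1) - 1) / ((2 : ℝ) ^ b - 1) := geom_sum_eq hy1.ne' _
      _ ≤ (((2 : ℝ) ^ b) ^ r1 * (2 : ℝ) ^ b) * ((2 : ℝ) ^ b - 1)⁻¹ := by
          rw [div_eq_mul_inv]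
          apply mul_le_mul_of_nonneg_right _ hinv.le
          rw [pow_succ]
          linarith
      _ ≤ (t ^ (-b) * (2 : ℝ) ^ b) * ((2 : ℝ) ^ b - 1)⁻¹ := by
          apply mul_le_mul_of_nonneg_right _ hinv.le
          apply mul_le_mul_of_nonneg_right _ hy0.le
          have e2 : ((2 : ℝ) ^ b) ^ r1 = ((2⁻¹ : ℝ) ^ r1) ^ (-b) := by
            rw [← wsPow3, neg_neg]
          rw [e2]
          exact Real.rpow_le_rpow_of_nonpos ht hmem (by linarith)
      _ = t ^ (-b) * ((2 : ℝ) ^ b * ((2 : ℝ) ^ b - 1)⁻¹) := by ring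

/-- Abel summation -/
theorem wsAbel (a : ℕ → ℝ) (ha : ∀ n, 0 ≤ a n) (hd : ∀ n, a (n + 1) ≤ a n) (h0 : a 0 ≤ 1)
    (m : ℕ) (N : ℕ) : ∑ n ∈ Finset.range N, ((m : ℝ) + n) * (a n - a (n + 1)) ≤
      m + ∑ n ∈ Finset.range N, a n := by
  have h1 : ∑ n ∈ Finset.range N, ((m : ℝ) + n) * (a n - a (n + 1)) + (m + N) * a N =
      m * a 0 + ∑ n ∈ Finset.range N, a (n + 1) := by
    induction N with
    | zero => simp
    | succ N ih =>
      rw [Finset.sum_range_succ, Finset.sum_range_succ]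
      push_cast
      linarith
  have h2 : ∑ n ∈ Finset.range N, a (n + 1) ≤ ∑ n ∈ Finset.range N, a n :=
    Finset.sum_le_sum (fun n _ => hd n)
  have h3 : 0 ≤ ((m : ℝ) + N) * a N := mul_nonneg (by positivity) (ha N)
  have h4 : (m : ℝ) * a 0 ≤ m := by
    have := mul_le_mul_of_nonneg_left h0 (Nat.cast_nonneg (α := ℝ) m)
    linarith
  linarith

theorem wsFar (τ : ℕ → ℝ) (Nm r : ℕ) (g : ℕ → ℝ) :
    ∑ n ∈ farS τ Nm r, g n =
      ∑ n ∈ Finset.range Nm, (if (2⁻¹ : ℝ) ^ r < τ n then g n else 0) := by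
  classical
  unfold farS
  rw [Finset.sum_filter]

set_option maxHeartbeats 4000000 in
/-- **WS** -/
theorem hWS : StWS := by
  intro p hp1 hp2
  set ε : ℝ := min ((2 - p) / 2) ((p - 1) / 2) with hε
  have he1 : ε ≤ (2 - p) / 2 := min_le_left _ _
  have he2 : ε ≤ (p - 1) / 2 := min_le_right _ _
  have he0 : 0 < ε := lt_min (by linarith) (by linarith)
  -- the constants
  set C1 : ℝ := (1 - (2 : ℝ) ^ (-(p - 1)))⁻¹ with hC1
  set C2 : ℝ := (1 - (2 : ℝ) ^ (-(p - 1 - ε)))⁻¹ with hC2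
  set C3 : ℝ := (1 - (2 : ℝ) ^ (-(p - 1 + ε)))⁻¹ with hC3
  set C4 : ℝ := (2 : ℝ) ^ (2 - p - ε) * ((2 : ℝ) ^ (2 - p - ε) - 1)⁻¹ with hC4
  have hC : ∀ b : ℝ, 0 < b → 0 < (1 - (2 : ℝ) ^ (-b))⁻¹ := by
    intro b hb
    have := Real.rpow_lt_one_of_one_lt_of_neg (x := 2) (by norm_num) (show -b < 0 by linarith)
    exact inv_pos.2 (by linarith)
  have hC1p : 0 < C1 := hC _ (by linarith)
  have hC2p : 0 < C2 := hC _ (by linarith)
  have hC3p : 0 < C3 := hC _ (by linarith)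
  have hC4p : 0 < C4 := by
    have := Real.one_lt_rpow (x := 2) (by norm_num) (show 0 < 2 - p - ε by linarith)
    exact mul_pos (by linarith) (inv_pos.2 (by linarith))
  refine ⟨ε, 2 * C1 + C2 + C3 + C4, he0, by linarith, by linarith, ?_⟩
  intro τ m₀ hτ Nm R
  obtain ⟨hanti, hpos, h01, -⟩ := hτ
  have hle1 : ∀ n, τ n ≤ 1 := fun n => (hanti.antitone (Nat.zero_le n)).trans h01
  have hSp : 0 ≤ ∑ n ∈ Finset.range Nm, τ n ^ p :=
    Finset.sum_nonneg (fun n _ => Real.rpow_nonneg (hpos n).le _)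
  have hm0 : (0 : ℝ) ≤ m₀ := Nat.cast_nonneg _
  refine ⟨?_, ?_⟩
  · -- first
    set c : ℕ → ℝ := fun n => (m₀ + n) * (τ n - τ (n + 1)) + (2⁻¹ : ℝ) ^ (m₀ + n) with hc
    have hc0 : ∀ n, 0 ≤ c n := by
      intro n
      have : 0 < τ n - τ (n + 1) := sub_pos.2 (hanti (Nat.lt_succ_self n))
      have h5 : 0 ≤ ((m₀ : ℝ) + n) * (τ n - τ (n + 1)) := by positivity
      have h6 : (0 : ℝ) ≤ (2⁻¹ : ℝ) ^ (m₀ + n) := by positivity
      simp only [hc]
      linarith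
    have e1 : ∀ r ∈ Finset.Icc 1 R, ((∑ n ∈ farS τ Nm r, c n) +
        ∑ j ∈ farS τ Nm r, τ j ^ 2 * (2 ^ r * τ j) ^ ε) * (2 : ℝ) ^ (-(r * (p - 1))) =
        ∑ n ∈ Finset.range Nm,
          (c n * (if (2⁻¹ : ℝ) ^ r < τ n then (2 : ℝ) ^ (-(r * (p - 1))) else 0) +
           τ n ^ (2 + ε) *
            (if (2⁻¹ : ℝ) ^ r < τ n then (2 : ℝ) ^ (-(r * (p - 1 - ε))) else 0)) := by
      intro r _
      rw [wsFar, wsFar, ← Finset.sum_add_distrib, Finset.sum_mul]
      apply Finset.sum_congr rfl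
      intro n _
      by_cases h : (2⁻¹ : ℝ) ^ r < τ n
      · rw [if_pos h, if_pos h, if_pos h, if_pos h, add_mul]
        congr 1
        have h2 : (0 : ℝ) < 2 := by norm_num
        rw [Real.mul_rpow (by positivity) (hpos n).le, ← Real.rpow_natCast (τ n) 2,
          ← Real.rpow_natCast (2 : ℝ) r, ← Real.rpow_mul h2.le, Real.rpow_add (hpos n)]
        have h3 : (2 : ℝ) ^ (-((r : ℝ) * (p - 1 - ε))) =
            (2 : ℝ) ^ ((r : ℝ) * ε) * (2 : ℝ) ^ (-((r : ℝ) * (p - 1))) := by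
          rw [← Real.rpow_add h2]
          congr 1
          ring
        rw [h3]
        push_cast
        ring
      · rw [if_neg h, if_neg h, if_neg h, if_neg h]
        ring
    rw [Finset.sum_congr rfl e1, Finset.sum_comm]
    have e2 : ∀ n ∈ Finset.range Nm, ∑ r ∈ Finset.Icc 1 R,
        (c n * (if (2⁻¹ : ℝ) ^ r < τ n then (2 : ℝ) ^ (-((r : ℝ) * (p - 1))) else 0) +
         τ n ^ (2 + ε) *
          (if (2⁻¹ : ℝ) ^ r < τ n then (2 : ℝ) ^ (-((r : ℝ) * (p - 1 - ε))) else 0)) ≤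
        C1 * (((m₀ : ℝ) + n) * (τ n ^ p - τ (n + 1) ^ p) + (2⁻¹ : ℝ) ^ (m₀ + n)) +
          C2 * τ n ^ p := by
      intro n _
      have hin : Finset.Icc 1 R ⊆ Finset.range (R + 1) := by
        intro r hr
        rw [Finset.mem_Icc] at hr
        rw [Finset.mem_range]
        omega
      have g1 : ∀ b : ℝ, 0 < b → ∑ r ∈ Finset.Icc 1 R,
          (if (2⁻¹ : ℝ) ^ r < τ n then (2 : ℝ) ^ (-((r : ℝ) * b)) else 0) ≤
          τ n ^ b * (1 - (2 : ℝ) ^ (-b))⁻¹ := by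
        intro b hb
        refine (Finset.sum_le_sum_of_subset_of_nonneg hin ?_).trans (wsG1 b (τ n) hb (hpos n) _)
        intro r _ _
        split_ifs
        · positivity
        · exact le_rfl
      rw [Finset.sum_add_distrib, ← Finset.mul_sum, ← Finset.mul_sum]
      have f1 := mul_le_mul_of_nonneg_left (g1 (p - 1) (by linarith)) (hc0 n)
      have f2 := mul_le_mul_of_nonneg_left (g1 (p - 1 - ε) (by linarith))
        (Real.rpow_nonneg (hpos n).le (2 + ε))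
      have f3 : τ n ^ (2 + ε) * (τ n ^ (p - 1 - ε) * (1 - (2 : ℝ) ^ (-(p - 1 - ε)))⁻¹) ≤
          C2 * τ n ^ p := by
        rw [← mul_assoc, ← Real.rpow_add (hpos n), mul_comm]
        apply mul_le_mul_of_nonneg_left _ hC2p.le
        exact Real.rpow_le_rpow_of_exponent_ge (hpos n) (hle1 n) (by linarith)
      have f4 : c n * (τ n ^ (p - 1) * (1 - (2 : ℝ) ^ (-(p - 1)))⁻¹) ≤
          C1 * (((m₀ : ℝ) + n) * (τ n ^ p - τ (n + 1) ^ p) + (2⁻¹ : ℝ) ^ (m₀ + n)) := by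
        have k1 : c n * (τ n ^ (p - 1) * (1 - (2 : ℝ) ^ (-(p - 1)))⁻¹) =
            C1 * (c n * τ n ^ (p - 1)) := by ring
        rw [k1]
        apply mul_le_mul_of_nonneg_left _ hC1p.le
        have k2 : τ n ^ p = τ n * τ n ^ (p - 1) := by
          conv_rhs => rw [← Real.rpow_one (τ n), ← Real.rpow_mul (hpos n).le, one_mul]
          rw [← Real.rpow_add (hpos n)]
          congr 1
          ring
        have k3 : τ (n + 1) ^ p ≤ τ (n + 1) * τ n ^ (p - 1) := by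
          have : τ (n + 1) ^ p = τ (n + 1) * τ (n + 1) ^ (p - 1) := by
            conv_rhs => rw [← Real.rpow_one (τ (n + 1)), ← Real.rpow_mul (hpos (n + 1)).le, one_mul]
            rw [← Real.rpow_add (hpos (n + 1))]
            congr 1
            ring
          rw [this]
          apply mul_le_mul_of_nonneg_left _ (hpos (n + 1)).le
          exact Real.rpow_le_rpow (hpos (n + 1)).le (hanti (Nat.lt_succ_self n)).le
            (by linarith)
        have k4 : (τ n - τ (n + 1)) * τ n ^ (p - 1) ≤ τ n ^ p - τ (n + 1) ^ p := by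
          rw [k2]
          linarith
        have k5 : τ n ^ (p - 1) ≤ 1 := Real.rpow_le_one (hpos n).le (hle1 n) (by linarith)
        have k6 : (0 : ℝ) ≤ (2⁻¹ : ℝ) ^ (m₀ + n) := by positivity
        have k7 := mul_le_mul_of_nonneg_left k4 (show (0 : ℝ) ≤ (m₀ : ℝ) + n by positivity)
        have k8 := mul_le_mul_of_nonneg_left k5 k6
        simp only [hc]
        nlinarith
      linarith
    refine (Finset.sum_le_sum e2).trans ?_
    rw [Finset.sum_add_distrib, ← Finset.mul_sum, ← Finset.mul_sum, Finset.sum_add_distrib]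
    have a1 : ∑ n ∈ Finset.range Nm, ((m₀ : ℝ) + n) * (τ n ^ p - τ (n + 1) ^ p) ≤
        m₀ + ∑ n ∈ Finset.range Nm, τ n ^ p := by
      apply wsAbel (fun n => τ n ^ p)
      · intro n
        exact Real.rpow_nonneg (hpos n).le _
      · intro n
        exact Real.rpow_le_rpow (hpos (n + 1)).le (hanti (Nat.lt_succ_self n)).le (by linarith)
      · exact Real.rpow_le_one (hpos 0).le (hle1 0) (by linarith)
    have a2 : ∑ n ∈ Finset.range Nm, (2⁻¹ : ℝ) ^ (m₀ + n) ≤ 2 := by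
      calc ∑ n ∈ Finset.range Nm, (2⁻¹ : ℝ) ^ (m₀ + n) ≤
            ∑ n ∈ Finset.range Nm, (2⁻¹ : ℝ) ^ n := by
            apply Finset.sum_le_sum
            intro n _
            rw [pow_add]
            have h1 : (2⁻¹ : ℝ) ^ m₀ ≤ 1 := pow_le_one₀ (by norm_num) (by norm_num)
            have h2 : (0 : ℝ) ≤ (2⁻¹ : ℝ) ^ n := by positivity
            nlinarith
        _ = ∑ n ∈ Finset.Ico 0 Nm, (2⁻¹ : ℝ) ^ n := by rw [Finset.range_eq_Ico]
        _ ≤ (2⁻¹ : ℝ) ^ 0 / (1 - 2⁻¹) :=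
            geom_sum_Ico_le_of_lt_one (by norm_num) (by norm_num)
        _ = 2 := by norm_num
    have a3 := mul_le_mul_of_nonneg_left (add_le_add a1 a2) hC1p.le
    have a4 : 0 ≤ C1 * (m₀ : ℝ) := by positivity
    have a5 : 0 ≤ C2 * (m₀ : ℝ) := by positivity
    have a6 : 0 ≤ (C3 + C4) * (m₀ + 1 + ∑ n ∈ Finset.range Nm, τ n ^ p) := by positivity
    have a7 : 0 ≤ C1 * ∑ n ∈ Finset.range Nm, τ n ^ p := by positivity
    nlinarith
  · -- second
    have e1 : ∀ r ∈ Finset.range (R + 1), (∑ j ∈ Finset.range Nm,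
        τ j * (min (τ j) ((2⁻¹ : ℝ) ^ r) * (2 ^ r * τ j) ^ (-ε))) * (2 : ℝ) ^ (r * (2 - p)) =
        ∑ j ∈ Finset.range Nm,
          (τ j ^ (1 - ε) *
            (if (2⁻¹ : ℝ) ^ r < τ j then (2 : ℝ) ^ (-(r * (p - 1 + ε))) else 0) +
           τ j ^ (2 - ε) *
            (if τ j ≤ (2⁻¹ : ℝ) ^ r then (2 : ℝ) ^ (r * (2 - p - ε)) else 0)) := by
      intro r _
      rw [Finset.sum_mul]
      apply Finset.sum_congr rfl
      intro j _
      have h2 : (0 : ℝ) < 2 := by norm_num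
      have hj := hpos j
      have h4 : (2 ^ r * τ j) ^ (-ε) = (2 : ℝ) ^ (-((r : ℝ) * ε)) * τ j ^ (-ε) := by
        rw [Real.mul_rpow (by positivity) hj.le, ← Real.rpow_natCast (2 : ℝ) r,
          ← Real.rpow_mul h2.le]
        congr 2
        ring
      rw [h4]
      rcases lt_or_ge ((2⁻¹ : ℝ) ^ r) (τ j) with h | h
      · rw [if_pos h, if_neg (not_le.2 h), min_eq_right h.le]
        have h5 : (2⁻¹ : ℝ) ^ r = (2 : ℝ) ^ (-(r : ℝ)) := by
          rw [Real.rpow_neg h2.le, Real.rpow_natCast, inv_pow]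
        have h6 : (2 : ℝ) ^ (-((r : ℝ) * (p - 1 + ε))) =
            (2 : ℝ) ^ (-(r : ℝ)) * (2 : ℝ) ^ (-((r : ℝ) * ε)) * (2 : ℝ) ^ ((r : ℝ) * (2 - p)) := by
          rw [← Real.rpow_add h2, ← Real.rpow_add h2]
          congr 1
          ring
        have h7 : τ j ^ (1 - ε) = τ j * τ j ^ (-ε) := by
          rw [show (1 - ε) = 1 + (-ε) by ring, Real.rpow_add hj, Real.rpow_one]
        rw [h5, h6, h7]
        ring
      · rw [if_neg (not_lt.2 h), if_pos h, min_eq_left h]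
        have h6 : (2 : ℝ) ^ ((r : ℝ) * (2 - p - ε)) =
            (2 : ℝ) ^ (-((r : ℝ) * ε)) * (2 : ℝ) ^ ((r : ℝ) * (2 - p)) := by
          rw [← Real.rpow_add h2]
          congr 1
          ring
        have h7 : τ j ^ (2 - ε) = τ j * τ j * τ j ^ (-ε) := by
          rw [show (2 - ε) = 1 + 1 + (-ε) by ring, Real.rpow_add hj, Real.rpow_add hj,
            Real.rpow_one]
        rw [h6, h7]
        ring
    rw [Finset.sum_congr rfl e1, Finset.sum_comm]
    have e2 : ∀ j ∈ Finset.range Nm, ∑ r ∈ Finset.range (R + 1),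
        (τ j ^ (1 - ε) *
            (if (2⁻¹ : ℝ) ^ r < τ j then (2 : ℝ) ^ (-((r : ℝ) * (p - 1 + ε))) else 0) +
           τ j ^ (2 - ε) *
            (if τ j ≤ (2⁻¹ : ℝ) ^ r then (2 : ℝ) ^ ((r : ℝ) * (2 - p - ε)) else 0)) ≤
        (C3 + C4) * τ j ^ p := by
      intro j _
      have hj := hpos j
      rw [Finset.sum_add_distrib, ← Finset.mul_sum, ← Finset.mul_sum]
      have f1 := mul_le_mul_of_nonneg_left (wsG1 (p - 1 + ε) (τ j) (by linarith) hj (R + 1))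
        (Real.rpow_nonneg hj.le (1 - ε))
      have f2 := mul_le_mul_of_nonneg_left (wsG2 (2 - p - ε) (τ j) (by linarith) hj (R + 1))
        (Real.rpow_nonneg hj.le (2 - ε))
      have f3 : τ j ^ (1 - ε) * (τ j ^ (p - 1 + ε) * (1 - (2 : ℝ) ^ (-(p - 1 + ε)))⁻¹) =
          C3 * τ j ^ p := by
        rw [← mul_assoc, ← Real.rpow_add hj, mul_comm]
        congr 2
        ring
      have f4 : τ j ^ (2 - ε) * (τ j ^ (-(2 - p - ε)) *
          ((2 : ℝ) ^ (2 - p - ε) * ((2 : ℝ) ^ (2 - p - ε) - 1)⁻¹)) = C4 * τ j ^ p := by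
        rw [← mul_assoc, ← Real.rpow_add hj, mul_comm]
        congr 2
        ring
      rw [f3] at f1
      rw [f4] at f2
      linarith
    refine (Finset.sum_le_sum e2).trans ?_
    rw [← Finset.mul_sum]
    apply mul_le_mul_of_nonneg_right _ hSp
    linarith

end Pool.Agent.Helper42.LM2
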