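import Pool.Agent.Helper68.LM2.St

set_option autoImplicit false

open MeasureTheory Set Filter Topology
open scoped ENNReal

namespace Pool.Agent.Helper42.LM2

open Pool.Agent.Helper68.LM2 Pool.Agent.Helper68.LM

/-- **YNG** -/
theorem hYNG : StYNG := by
  intro r a t J c hr
  have hr0 : 0 < r := by linarith
  set A : ℝ≥0∞ := ∑' m : ℤ, a m with hA
  have hsh : ∀ j : ℕ, ∑' k : ℤ, a (k + c - (j : ℤ)) = A := by
    intro j
    rw [hA, ← (Equiv.addRight (c - (j : ℤ))).tsum_eq a]
    apply tsum_congr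
    intro k
    congr 1
    simp only [Equiv.coe_addRight]
    ring
  have h1 : ∀ k : ℤ, (∑ j ∈ Finset.range J, t j * a (k + c - (j : ℤ))) ^ r ≤
      A ^ (r - 1) * ∑ j ∈ Finset.range J, t j ^ r * a (k + c - (j : ℤ)) := by
    intro k
    have h2 := ENNReal.inner_le_weight_mul_Lp_of_nonneg (Finset.range J) hr
      (fun j => a (k + c - (j : ℤ))) t
    have hle : ∑ j ∈ Finset.range J, a (k + c - (j : ℤ)) ≤ A := by
      have hinj : Set.InjOn (fun j : ℕ => k + c - (j : ℤ)) (Finset.range J : Set ℕ) := by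
        intro x _ y _ hxy
        simp only at hxy
        omega
      rw [← Finset.sum_image (f := a) (g := fun j : ℕ => k + c - (j : ℤ)) hinj]
      exact ENNReal.sum_le_tsum _
    calc (∑ j ∈ Finset.range J, t j * a (k + c - (j : ℤ))) ^ r
        = (∑ j ∈ Finset.range J, a (k + c - (j : ℤ)) * t j) ^ r := by
          congr 1
          exact Finset.sum_congr rfl (fun j _ => mul_comm _ _)
      _ ≤ ((∑ j ∈ Finset.range J, a (k + c - (j : ℤ))) ^ (1 - r⁻¹) *
            (∑ j ∈ Finset.range J, a (k + c - (j : ℤ)) * t j ^ r) ^ r⁻¹) ^ r :=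
          ENNReal.rpow_le_rpow h2 hr0.le
      _ = (∑ j ∈ Finset.range J, a (k + c - (j : ℤ))) ^ (r - 1) *
            ∑ j ∈ Finset.range J, a (k + c - (j : ℤ)) * t j ^ r := by
          rw [ENNReal.mul_rpow_of_nonneg _ _ hr0.le, ← ENNReal.rpow_mul, ← ENNReal.rpow_mul,
            inv_mul_cancel₀ hr0.ne', ENNReal.rpow_one]
          congr 2
          field_simp
      _ ≤ A ^ (r - 1) * ∑ j ∈ Finset.range J, a (k + c - (j : ℤ)) * t j ^ r := by
          apply mul_le_mul_left
          exact ENNReal.rpow_le_rpow hle (by linarith)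
      _ = A ^ (r - 1) * ∑ j ∈ Finset.range J, t j ^ r * a (k + c - (j : ℤ)) := by
          congr 1
          exact Finset.sum_congr rfl (fun j _ => mul_comm _ _)
  calc ∑' k : ℤ, (∑ j ∈ Finset.range J, t j * a (k + c - (j : ℤ))) ^ r
      ≤ ∑' k : ℤ, A ^ (r - 1) * ∑ j ∈ Finset.range J, t j ^ r * a (k + c - (j : ℤ)) :=
        ENNReal.tsum_le_tsum h1
    _ = A ^ (r - 1) * ∑ j ∈ Finset.range J, t j ^ r * A := by
        rw [ENNReal.tsum_mul_left]
        congr 1
        rw [Summable.tsum_finsetSum (fun j _ => ENNReal.summable)]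
        apply Finset.sum_congr rfl
        intro j _
        rw [ENNReal.tsum_mul_left, hsh j]
    _ = (∑ j ∈ Finset.range J, t j ^ r) * (A ^ (r - 1) * A) := by
        rw [← Finset.sum_mul]
        ring
    _ = (∑ j ∈ Finset.range J, t j ^ r) * A ^ r := by
        congr 1
        conv_lhs => rw [← ENNReal.rpow_one A, ← ENNReal.rpow_mul, one_mul]
        rw [← ENNReal.rpow_add_of_nonneg _ _ (by linarith) (by norm_num)]
        congr 1
        ring

end Pool.Agent.Helper42.LM2
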